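import Pool.Agent.H366Z.Mat.Lim

/-!
The number of isomorphism classes of `GF(q)`-representable matroids on `n` elements is
asymptotic to `(n! k (q-1)^(n-1))⁻¹ ∑_j [n choose j]_q` for every prime power `q = p^k > 3`.
-/

set_option autoImplicit false

open Filter Topology

namespace Pool.Agent.Results.MP_e84969_co.Asymptotic

/-- `M` is representable over `F`: some matrix over `F` with columns indexed by the elements
has exactly the independent sets of `M` as its linearly independent sets of columns. -/
def Representable (F : Type) [Field F] {n : ℕ} (M : Matroid (Fin n)) : Prop :=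
  ∃ (r : ℕ) (A : Matrix (Fin r) (Fin n) F),
    ∀ I : Set (Fin n), M.Indep I ↔ LinearIndepOn F (fun (e : Fin n) (i : Fin r) => A i e) I

/-- The `F`-representable matroids with ground set all of `Fin n`. -/
def RepMatroid (F : Type) [Field F] (n : ℕ) : Type :=
  {M : Matroid (Fin n) // M.E = Set.univ ∧ Representable F M}

/-- Isomorphism of matroids: a bijection of the ground sets matching the independent sets. -/
def isoSetoid (F : Type) [Field F] (n : ℕ) : Setoid (RepMatroid F n) where
  r M N := ∃ σ : Fin n ≃ Fin n, ∀ I : Set (Fin n), M.1.Indep I ↔ N.1.Indep (σ '' I)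
  iseqv :=
    { refl := fun _ => ⟨Equiv.refl _, fun I => by simp⟩
      symm := fun ⟨σ, h⟩ => ⟨σ.symm, fun I => by rw [h, Equiv.image_symm_image]⟩
      trans := fun ⟨σ, h⟩ ⟨τ, h'⟩ => ⟨σ.trans τ, fun I => by
        rw [h, h', Equiv.coe_trans, Set.image_comp]⟩ }

/-- `a_q(n)`: the number of isomorphism classes of `F`-representable matroids on `n` elements. -/
noncomputable def numClasses (F : Type) [Field F] (n : ℕ) : ℕ :=
  Nat.card (Quotient (isoSetoid F n))

/-- The Gaussian binomial coefficient: the number of `j`-dimensional subspaces of `F ^ n`. -/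
noncomputable def gaussBinom (F : Type) [Field F] (n j : ℕ) : ℕ :=
  Nat.card {W : Submodule F (Fin n → F) // Module.finrank F W = j}

open Pool.Agent.H366Z.Mat in
theorem result (p k : ℕ) (hp : p.Prime) (hq : 3 < p ^ k)
    (F : Type) [Field F] [Fintype F] (hF : Fintype.card F = p ^ k) :
    Tendsto (fun n : ℕ => (numClasses F n : ℝ) /
      (1 / ((n.factorial : ℝ) * k * ((p : ℝ) ^ k - 1) ^ (n - 1)) *
        ∑ j ∈ Finset.range (n + 1), (gaussBinom F n j : ℝ))) atTop (𝓝 1) := by
  classical
  let mk : ∀ n, Submodule F (Fin n → F) → RepMatroid F n := fun n K =>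
    ⟨kmat K, kmat_E K, by
      obtain ⟨r, φ, rfl⟩ := exists_phi K
      exact ⟨r, Matrix.of fun i e => φ e i, fun I => by rw [kmat_indep, ← ind_iff]; rfl⟩⟩
  have h := main_lim (F := F) (by omega) (fun n => Quotient (isoSetoid F n))
    (fun n K => Quotient.mk _ (mk n K)) ?_ ?_ ?_
  · refine h.congr fun n => ?_
    have e1 : ∑ j ∈ Finset.range (n + 1), (gaussBinom F n j : ℝ) =
        Fintype.card (Submodule F (Fin n → F)) := by
      rw [← sum_gauss (F := F) n, Nat.cast_sum]; rfl
    rw [e1, card_aut hp hF, hF, numClasses]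
    push_cast
    rw [one_div, ← div_eq_inv_mul]
  · intro n c
    obtain ⟨⟨M, hE, r, A, hA⟩, rfl⟩ := Quotient.exists_rep c
    refine ⟨kr (F := F) (fun (e : Fin n) (i : Fin r) => A i e),
      Quotient.sound ⟨Equiv.refl _, fun I => ?_⟩⟩
    show (kmat _).Indep I ↔ M.Indep _
    rw [kmat_indep, ← ind_iff, hA]; simp
  · intro n g K
    exact Quotient.sound ⟨g.σ, fun I => by
      show (kmat _).Indep I ↔ (kmat _).Indep _
      rw [kmat_indep, kmat_indep, KInd_smul]⟩
  · intro n K K' hK e
    obtain ⟨σ, hσ⟩ := Quotient.exact e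
    refine uniqK K K' hK σ fun I => ?_
    rw [← kmat_indep, ← kmat_indep]
    exact hσ I

end Pool.Agent.Results.MP_e84969_co.Asymptotic
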